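import Pool.Agent.Y354.DC3.Stm3

/-!
# Project DC4: the lower level (adapted from `Pool.Agent.Y185.DC3.J4`)
-/

set_option autoImplicit false

open Finset
open scoped Classical

namespace Pool.Agent.Y514.DC4

open Pool.Agent.Y354.DC3

theorem I_nonneg (p : Prop) : 0 ≤ I p := by
  unfold I
  split_ifs <;> norm_num

theorem E_mono {V : Type} [Fintype V] {μ : V → ℝ} {N : V → V → V → Prop} (hμ : ∀ v, 0 ≤ μ v)
    {k : ℕ} {F G : (Fin k → V) → ℝ} (h : ∀ x, (∀ i, 0 < μ (x i)) → F x ≤ G x) :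
    E μ N k F ≤ E μ N k G := by
  unfold E
  refine sum_le_sum fun x _ => ?_
  by_cases h0 : ∀ i, 0 < μ (x i)
  · exact mul_le_mul_of_nonneg_left (h x h0)
      (mul_nonneg (I_nonneg _) (prod_nonneg fun i _ => hμ _))
  · push Not at h0
    obtain ⟨i, hi⟩ := h0
    have h1 : ∏ i, μ (x i) = 0 := prod_eq_zero (mem_univ i) (le_antisymm hi (hμ _))
    rw [h1]
    simp

theorem E_add {V : Type} [Fintype V] (μ : V → ℝ) (N : V → V → V → Prop)
    (k : ℕ) (F G : (Fin k → V) → ℝ) :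
    E μ N k (fun x => F x + G x) = E μ N k F + E μ N k G := by
  unfold E
  rw [← sum_add_distrib]
  exact sum_congr rfl fun x _ => by ring

theorem E_mul {V : Type} [Fintype V] (μ : V → ℝ) (N : V → V → V → Prop)
    (k : ℕ) (c : ℝ) (F : (Fin k → V) → ℝ) :
    E μ N k (fun x => c * F x) = c * E μ N k F := by
  unfold E
  rw [mul_sum]
  exact sum_congr rfl fun x _ => by ring

theorem E_sum {V : Type} [Fintype V] (μ : V → ℝ) (N : V → V → V → Prop)
    (k : ℕ) {m : ℕ} (F : Fin m → (Fin k → V) → ℝ) :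
    E μ N k (fun x => ∑ i, F i x) = ∑ i, E μ N k (F i) := by
  unfold E
  rw [sum_comm]
  exact sum_congr rfl fun x _ => by rw [mul_sum]

theorem S_symm {V : Type} {N : V → V → V → Prop} (hN : Sy N) {k : ℕ} (x : Fin k → V) (v u : V) :
    S N x v u = S N x u v := by
  unfold S
  congr 1
  ext l
  simp only [mem_filter, mem_univ, true_and]
  exact ⟨hN.1 _ _ _, hN.1 _ _ _⟩

theorem tw2_le {V : Type} (N : V → V → V → Prop) {k : ℕ} (y : Fin k → V) (w v u : V) :
    tw2 N y w v u ≤ tw N y w v u := by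
  unfold tw2 tw
  by_cases h1 : Al N y v ∧ Al N y u ∧ Ad N y v u
  · by_cases h2 : Ad N y w v ∧ Ad N y w u
    · rw [if_pos ⟨h1.1, h1.2.1, h1.2.2, h2.1, h2.2⟩, if_neg (not_not.2 h1), if_pos h2]
    · rw [if_neg (fun h => h2 ⟨h.2.2.2.1, h.2.2.2.2⟩)]
      exact Nat.zero_le _
  · rw [if_neg (fun h => h1 ⟨h.1, h.2.1, h.2.2.1⟩)]
    exact Nat.zero_le _

theorem pointwise (hAL : S_AL) (hT1 : S_T1) {V : Type} (N : V → V → V → Prop) (hN : Sy N)
    (k : ℕ) (x : Fin (k + 1) → V) (v u : V) :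
    ∑ i : Fin (k + 1), (tw2 N (rm x i) (x i) v u : ℝ) ≤
      2 * ((1 - I (Al N x v)) * (1 - I (Al N x u)) * (S N x v u : ℝ)) := by
  by_cases hv : Al N x v
  · have h0 : ∀ i : Fin (k + 1), (tw2 N (rm x i) (x i) v u : ℝ) = 0 := by
      intro i
      have h1 := ((hAL V N hN k i x).2.1 v).1 hv
      unfold tw2
      rw [if_neg (fun h => h1.2 h.2.2.2.1)]
      simp
    rw [sum_eq_zero fun i _ => h0 i]
    simp [I, hv]
  · by_cases hu : Al N x u
    · have h0 : ∀ i : Fin (k + 1), (tw2 N (rm x i) (x i) v u : ℝ) = 0 := by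
        intro i
        have h1 := ((hAL V N hN k i x).2.1 u).1 hu
        unfold tw2
        rw [if_neg (fun h => h1.2 h.2.2.2.2)]
        simp
      rw [sum_eq_zero fun i _ => h0 i]
      simp [I, hu]
    · have h4 := hT1 V N hN k x v u
      have h5 : ∑ i : Fin (k + 1), tw2 N (rm x i) (x i) v u ≤ 2 * S N x v u := by
        calc ∑ i : Fin (k + 1), tw2 N (rm x i) (x i) v u
            ≤ ∑ i : Fin (k + 1), tw N (rm x i) (x i) v u := sum_le_sum fun i _ => tw2_le N _ _ _ _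
          _ ≤ 2 * S N x v u := le_trans (Nat.le_add_left _ _) h4
      have h6 : ((∑ i : Fin (k + 1), tw2 N (rm x i) (x i) v u : ℕ) : ℝ) ≤
        ((2 * S N x v u : ℕ) : ℝ) := Nat.cast_le.2 h5
      push_cast at h6
      simp only [I, hv, hu, if_false]
      linarith

/-- splitting of the pairs -/
theorem split_sum {V : Type} [Fintype V] (μ a : V → ℝ) (s : V → V → ℝ) (hs : ∀ v u, s v u = s u v) :
    ∑ v, ∑ u, μ v * μ u * s v u =
      (∑ v, μ v * a v * ∑ u, μ u * ((2 - a u) * s v u)) +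
        ∑ v, ∑ u, μ v * μ u * ((1 - a v) * (1 - a u) * s v u) := by
  have h1 : ∑ v, ∑ u, μ v * μ u * (a v * s v u) = ∑ v, ∑ u, μ v * μ u * (a u * s v u) := by
    rw [sum_comm]
    refine sum_congr rfl fun v _ => sum_congr rfl fun u _ => ?_
    rw [hs u v]
    ring
  have h2 : (∑ v, μ v * a v * ∑ u, μ u * ((2 - a u) * s v u)) +
        ∑ v, ∑ u, μ v * μ u * ((1 - a v) * (1 - a u) * s v u) =
      ∑ v, ∑ u, μ v * μ u * s v u + (∑ v, ∑ u, μ v * μ u * (a v * s v u) -
        ∑ v, ∑ u, μ v * μ u * (a u * s v u)) := by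
    rw [← sum_add_distrib, ← sum_sub_distrib, ← sum_add_distrib]
    refine sum_congr rfl fun v _ => ?_
    rw [mul_sum, ← sum_add_distrib, ← sum_sub_distrib, ← sum_add_distrib]
    refine sum_congr rfl fun u _ => ?_
    ring
  rw [h2, h1]
  ring

theorem s_lo (hAL : S_AL) (hEX : S_EX) (hT1 : S_T1) (hT2 : S_T2b) : S_LO := by
  intro V _ μ N hN hμ t ht k
  -- the left side of (1)
  have hA : E μ N (k + 1) (fun x => ∑ v, ∑ u, μ v * μ u * (S N x v u : ℝ)) ≤
      ((k : ℝ) + 1) * t * P μ N (k + 1) := by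
    have h1 : E μ N (k + 1) (fun x => ∑ v, ∑ u, μ v * μ u * (S N x v u : ℝ)) ≤
        E μ N (k + 1) (fun _ => ((k : ℝ) + 1) * t * 1) := by
      refine E_mono hμ fun x hx => ?_
      have h2 : ∑ v, ∑ u, μ v * μ u * (S N x v u : ℝ) = ∑ i, dg μ N (x i) := by
        unfold dg
        symm
        rw [sum_comm]
        refine sum_congr rfl fun v _ => ?_
        rw [sum_comm]
        refine sum_congr rfl fun u _ => ?_
        rw [← mul_sum]
        congr 1
        unfold S I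
        rw [sum_boole]
      rw [h2]
      calc ∑ i, dg μ N (x i) ≤ ∑ i : Fin (k + 1), t := sum_le_sum fun i _ => ht _ (hx i)
        _ = ((k : ℝ) + 1) * t * 1 := by
          rw [sum_const, card_univ, Fintype.card_fin, nsmul_eq_mul]
          push_cast
          ring
    refine h1.trans (le_of_eq ?_)
    rw [E_mul]
    rfl
  -- the pointwise inequality
  have hB : E μ N (k + 1) (fun y => ∑ v, μ v * I (Al N y v) *
      ∑ u, μ u * ((2 - I (Al N y u)) * (S N y v u : ℝ))) +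
      1 / 2 * ∑ i : Fin (k + 1), E μ N (k + 1)
        (fun x => ∑ v, ∑ u, μ v * μ u * (tw2 N (rm x i) (x i) v u : ℝ)) ≤
      E μ N (k + 1) (fun x => ∑ v, ∑ u, μ v * μ u * (S N x v u : ℝ)) := by
    rw [← E_sum, ← E_mul, ← E_add]
    refine E_mono hμ fun x _ => ?_
    have h3 : ∑ i : Fin (k + 1), ∑ v, ∑ u, μ v * μ u * (tw2 N (rm x i) (x i) v u : ℝ) =
        ∑ v, ∑ u, μ v * μ u * ∑ i : Fin (k + 1), (tw2 N (rm x i) (x i) v u : ℝ) := by
      rw [sum_comm]
      refine sum_congr rfl fun v _ => ?_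
      rw [sum_comm]
      refine sum_congr rfl fun u _ => ?_
      rw [mul_sum]
    rw [h3, split_sum μ (fun v => I (Al N x v)) (fun v u => (S N x v u : ℝ))
      (fun v u => by rw [S_symm hN]), mul_sum]
    refine add_le_add le_rfl (sum_le_sum fun v _ => ?_)
    rw [mul_sum]
    refine sum_le_sum fun u _ => ?_
    have h5 := pointwise hAL hT1 N hN k x v u
    have h7 : 0 ≤ μ v * μ u := mul_nonneg (hμ v) (hμ u)
    have h8 := mul_le_mul_of_nonneg_left h5 h7
    linarith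
  have hC : ∀ i : Fin (k + 1), 5 / 3 * TR μ N k ≤ E μ N (k + 1)
      (fun x => ∑ v, ∑ u, μ v * μ u * (tw2 N (rm x i) (x i) v u : ℝ)) := by
    intro i
    rw [hEX V μ N hN k i (fun y w => ∑ v, ∑ u, μ v * μ u * (tw2 N y w v u : ℝ))]
    unfold TR
    rw [← E_mul]
    exact E_mono hμ fun y _ => hT2 V μ N hN hμ k y
  have hD : ((k : ℝ) + 1) * (5 / 3 * TR μ N k) ≤ ∑ i : Fin (k + 1), E μ N (k + 1)
        (fun x => ∑ v, ∑ u, μ v * μ u * (tw2 N (rm x i) (x i) v u : ℝ)) := by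
    calc ((k : ℝ) + 1) * (5 / 3 * TR μ N k) = ∑ i : Fin (k + 1), 5 / 3 * TR μ N k := by
          rw [sum_const, card_univ, Fintype.card_fin, nsmul_eq_mul]
          push_cast
          ring
      _ ≤ _ := sum_le_sum fun i _ => hC i
  linarith

end Pool.Agent.Y514.DC4
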